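import Pool.Agent.WNH.F
import Pool.Agent.WNH.Cpt
import Pool.Agent.WNH.K1

set_option autoImplicit false

/-!
# Real multiples of weakly numerically hypercyclic operators

The definitions are in `Pool.Agent.WNH.Defs` (`NumHyp`, `WNumHyp`, `JP`, `StarPred`, `gr`, `Dec`),
`Pool.Agent.WNH.D0` (`RayCond`) and `Pool.Agent.WNH.F` (`InfChain`).
-/

namespace Pool.Agent.Results.MP_dcf2cf_an.RealMultiples

open WNH

universe u

theorem result :
    (∀ (X : Type u) [NormedAddCommGroup X] [NormedSpace ℂ X] [CompleteSpace X]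
      (T : X →L[ℂ] X), WNumHyp T → (¬ InfChain T ∨ RayCond T ∨ StarPred (JP T)) →
        ∀ r : ℝ, 1 ≤ r → WNumHyp ((r : ℂ) • T)) ∧
    (∀ (X : Type u) [NormedAddCommGroup X] [NormedSpace ℂ X] [CompleteSpace X]
      (T : X →L[ℂ] X), StarPred (JP T) → WNumHyp T) ∧
    (∀ (X : Type u) [NormedAddCommGroup X] [NormedSpace ℂ X] [CompleteSpace X]
      (T : X →L[ℂ] X), Dec T → (WNumHyp T ↔ StarPred (JP T))) ∧
    (∀ (X : Type u) [NormedAddCommGroup X] [NormedSpace ℂ X] [CompleteSpace X]
      (T : X →L[ℂ] X), (FiniteDimensional ℂ X ∨ IsCompactOperator T) →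
        (¬ InfChain T ∧ (WNumHyp T ↔ StarPred (JP T)))) := by
  refine ⟨?_, ?_, ?_, ?_⟩
  · intro X _ _ _ T hT h r hr
    exact wNumHyp_smul T hT h r hr
  · intro X _ _ _ T h
    exact wNumHyp_of_star T h
  · intro X _ _ _ T h
    exact wNumHyp_iff_of_dec T h
  · intro X _ _ _ T h
    have hc : IsCompactOperator T := by
      rcases h with h | h
      · exact ((isCompactOperator_id_iff_finiteDimensional (𝕜 := ℂ) (E := X)).mpr h).comp_clm T
      · exact h
    exact ⟨not_infChain_of_compact T hc, wNumHyp_iff_of_dec T (dec_of_compact T hc)⟩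

end Pool.Agent.Results.MP_dcf2cf_an.RealMultiples
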